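import Mathlib

set_option autoImplicit false

namespace Pool.Agent.Results.MP_e57dcf_an.NotDense

open scoped RealInnerProductSpace

/-- `x` and `y` weakly have the same phase. -/
def WeaklySamePhase {n : ℕ} (x y : EuclideanSpace ℝ (Fin n)) : Prop :=
  ∃ θ : ℝ, (θ = 1 ∨ θ = -1) ∧ ∀ k, x k * y k ≠ 0 → Real.sign (x k) = θ * Real.sign (y k)

/-- The family `φ` does weak phase retrieval. -/
def WeakPR {n m : ℕ} (φ : Fin m → EuclideanSpace ℝ (Fin n)) : Prop :=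
  ∀ x y : EuclideanSpace ℝ (Fin n), (∀ i, |⟪x, φ i⟫| = |⟪y, φ i⟫|) → WeaklySamePhase x y

/-- Frames of `m` vectors for `ℝ^n`: ordered spanning families. -/
def Frames (n m : ℕ) : Set (Fin m → EuclideanSpace ℝ (Fin n)) :=
  {φ | Submodule.span ℝ (Set.range φ) = ⊤}

theorem not_same {n : ℕ} {x y : EuclideanSpace ℝ (Fin n)} {k l : Fin n} (hk : 0 < x k * y k)
    (hl : x l * y l < 0) : ¬ WeaklySamePhase x y := by
  rintro ⟨θ, hθ, h⟩
  have h1 := h k hk.ne'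
  have h2 := h l hl.ne
  rcases hθ with rfl | rfl
  · rcases mul_neg_iff.1 hl with ⟨a, b⟩ | ⟨a, b⟩
    · rw [Real.sign_of_pos a, Real.sign_of_neg b] at h2; norm_num at h2
    · rw [Real.sign_of_neg a, Real.sign_of_pos b] at h2; norm_num at h2
  · rcases mul_pos_iff.1 hk with ⟨a, b⟩ | ⟨a, b⟩
    · rw [Real.sign_of_pos a, Real.sign_of_pos b] at h1; norm_num at h1
    · rw [Real.sign_of_neg a, Real.sign_of_neg b] at h1; norm_num at h1

/-- a unit vector orthogonal to `p` vectors of `ℝ^(p+1)` -/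
theorem exists_unit {p : ℕ} (ψ : Fin p → EuclideanSpace ℝ (Fin (p + 1))) :
    ∃ u : EuclideanSpace ℝ (Fin (p + 1)), ‖u‖ = 1 ∧ ∀ i, ⟪u, ψ i⟫ = 0 := by
  let L : EuclideanSpace ℝ (Fin (p + 1)) →ₗ[ℝ] (Fin p → ℝ) :=
    LinearMap.pi fun i => (innerₗ _).flip (ψ i)
  have h : LinearMap.ker L ≠ ⊥ := LinearMap.ker_ne_bot_of_finrank_lt (by simp)
  obtain ⟨w, hw, hw0⟩ := Submodule.exists_mem_ne_zero_of_ne_bot h
  refine ⟨‖w‖⁻¹ • w, norm_smul_inv_norm hw0, fun i => ?_⟩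
  have : ⟪w, ψ i⟫ = 0 := congrFun (LinearMap.mem_ker.1 hw) i
  rw [real_inner_smul_left, this, mul_zero]

theorem coord_small {n : ℕ} {u ψ : EuclideanSpace ℝ (Fin n)} {k : Fin n} {ε : ℝ} (hu : ‖u‖ = 1)
    (h0 : ⟪u, ψ⟫ = 0) (hd : dist ψ (EuclideanSpace.single k 1) < ε) : (u k) ^ 2 < ε ^ 2 := by
  have h1 : u k = ⟪u, EuclideanSpace.single k 1 - ψ⟫ := by
    rw [inner_sub_right, h0, EuclideanSpace.inner_single_right]; simp
  have h2 : |u k| < ε := by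
    rw [h1]
    refine (abs_real_inner_le_norm _ _).trans_lt ?_
    rw [hu, one_mul, ← dist_eq_norm, dist_comm]
    exact hd
  exact sq_lt_sq' (abs_lt.1 h2).1 (abs_lt.1 h2).2

theorem coord_big {n : ℕ} {u : EuclideanSpace ℝ (Fin n)} {k : Fin n} {ε : ℝ} (hu : ‖u‖ = 1)
    (h : ∀ l, l ≠ k → (u l) ^ 2 < ε ^ 2) : 1 - n * ε ^ 2 ≤ (u k) ^ 2 := by
  have h1 : ∑ l, (u l) ^ 2 = 1 := by
    rw [← EuclideanSpace.real_norm_sq_eq, hu]; norm_num
  rw [← Finset.add_sum_erase _ _ (Finset.mem_univ k)] at h1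
  have h2 : ∑ l ∈ Finset.univ.erase k, (u l) ^ 2 ≤ ∑ _l ∈ Finset.univ.erase k, ε ^ 2 :=
    Finset.sum_le_sum fun l hl => (h l (Finset.ne_of_mem_erase hl)).le
  have h3 : ∑ _l ∈ Finset.univ.erase k, ε ^ 2 ≤ ∑ _l : Fin n, ε ^ 2 :=
    Finset.sum_le_sum_of_subset_of_nonneg (Finset.erase_subset _ _) fun _ _ _ => sq_nonneg _
  simp only [Finset.sum_const, Finset.card_univ, Fintype.card_fin, nsmul_eq_mul] at h3
  simp only [Finset.sum_const, nsmul_eq_mul] at h2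
  linarith

theorem result (n : ℕ) (hn : 2 ≤ n) :
    ¬ Frames n (2 * n - 2) ⊆ closure {φ ∈ Frames n (2 * n - 2) | WeakPR φ} := by
  obtain ⟨p, rfl⟩ : ∃ p, n = p + 1 := ⟨n - 1, by omega⟩
  have hp : 1 ≤ p := by omega
  intro hsub
  let c : Fin (2 * (p + 1) - 2) → Fin (p + 1) := fun i =>
    if h : (i : ℕ) < p then ⟨i, by omega⟩ else ⟨i - p + 1, by have := i.2; omega⟩
  let φ₀ : Fin (2 * (p + 1) - 2) → EuclideanSpace ℝ (Fin (p + 1)) := fun i =>
    EuclideanSpace.single (c i) 1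
  let a : Fin p → Fin (2 * (p + 1) - 2) := fun i => ⟨i, by have := i.2; omega⟩
  let b : Fin p → Fin (2 * (p + 1) - 2) := fun i => ⟨p + i, by have := i.2; omega⟩
  have hca : ∀ i, c (a i) = i.castSucc := fun i => by
    simp only [c, a]; rw [dif_pos i.2]; rfl
  have hcb : ∀ i, c (b i) = i.succ := fun i => by
    simp only [c, b]; rw [dif_neg (by omega)]; ext; simp
  have hab : ∀ j, (∃ i, j = a i) ∨ ∃ i, j = b i := fun j => by
    by_cases h : (j : ℕ) < p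
    · exact Or.inl ⟨⟨j, h⟩, rfl⟩
    · exact Or.inr ⟨⟨j - p, by have := j.2; omega⟩, by ext; simp only [b]; omega⟩
  have hsurj : Function.Surjective c := fun k => by
    rcases Fin.eq_castSucc_or_eq_last k with ⟨i, rfl⟩ | rfl
    · exact ⟨_, hca i⟩
    · exact ⟨b ⟨p - 1, by omega⟩, by rw [hcb]; ext; simp; omega⟩
  have h0 : φ₀ ∈ Frames (p + 1) (2 * (p + 1) - 2) := by
    have h1 := (EuclideanSpace.basisFun (Fin (p + 1)) ℝ).toBasis.span_eq
    refine top_le_iff.1 (h1 ▸ Submodule.span_mono ?_)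
    rintro _ ⟨k, rfl⟩
    obtain ⟨j, rfl⟩ := hsurj k
    exact ⟨j, by simp [φ₀]⟩
  set ε : ℝ := 1 / (p + 3) with hε
  have hp0 : (0 : ℝ) ≤ p := by positivity
  have hε0 : 0 < ε := by positivity
  have hε1 : ε ^ 2 < 1 - ((p + 1 : ℕ) : ℝ) * ε ^ 2 := by
    have : ε * (p + 3) = 1 := by rw [hε]; field_simp
    push_cast
    nlinarith
  obtain ⟨φ, ⟨-, hφ⟩, hd⟩ := Metric.mem_closure_iff.1 (hsub h0) ε hε0
  have hd' : ∀ j, dist (φ j) (EuclideanSpace.single (c j) 1) < ε := fun j => by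
    rw [dist_comm]; exact (dist_le_pi_dist φ₀ φ j).trans_lt hd
  obtain ⟨u, hu, hu0⟩ := exists_unit fun i => φ (a i)
  obtain ⟨v, hv, hv0⟩ := exists_unit fun i => φ (b i)
  have hu1 : ∀ l, l ≠ Fin.last p → (u l) ^ 2 < ε ^ 2 := fun l hl => by
    obtain ⟨i, rfl⟩ := Fin.exists_castSucc_eq.2 hl
    exact coord_small hu (hu0 i) (hca i ▸ hd' (a i))
  have hv1 : ∀ l, l ≠ 0 → (v l) ^ 2 < ε ^ 2 := fun l hl => by
    obtain ⟨i, rfl⟩ := Fin.exists_succ_eq.2 hl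
    exact coord_small hv (hv0 i) (hcb i ▸ hd' (b i))
  have hne : Fin.last p ≠ 0 := by
    intro h; have := congrArg Fin.val h; simp at this; omega
  have h1 := coord_big hu hu1
  have h2 := coord_big hv hv1
  have h3 := hu1 0 hne.symm
  have h4 := hv1 _ hne
  refine not_same (x := u + v) (y := u - v) (k := Fin.last p) (l := 0) ?_ ?_ (hφ _ _ fun j => ?_)
  · simp only [PiLp.add_apply, PiLp.sub_apply]; nlinarith
  · simp only [PiLp.add_apply, PiLp.sub_apply]; nlinarith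
  · rw [inner_add_left, inner_sub_left]
    rcases hab j with ⟨i, rfl⟩ | ⟨i, rfl⟩
    · rw [hu0 i]; simp
    · rw [hv0 i]; simp

end Pool.Agent.Results.MP_e57dcf_an.NotDense
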